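import Mathlib
import Pool.Agent.R2.Perron

/-!
# Deleting an edge from a regular graph: the principal ratio is at most `n ^ 2`

Let `G` be a connected `d`-regular graph on `n` vertices, `e = uv` an edge such that `H = G - e` is
connected, `q > 0` the principal eigenvector of `H`, `A_H q = lam q`, and `ε = d - lam`. Summing the
eigenvalue equation over a set `S` of vertices shows that the net flow of `q` out of `S` is
`ε ∑_S q - [u ∈ S] q_u - [v ∈ S] q_v`, and `ε ∑ q = q_u + q_v`. For a level set `S = {q ≥ s}` all
edges leaving `S` carry nonnegative flow, and some edge leaves `S`; so the gap between two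
consecutive values of `q` is at most `q_u` below `q_v` and at most `q_u + q_v` above it, if the
minimum of `q` is attained at `u` (it is attained at `u` or at `v`).
-/

set_option autoImplicit false

namespace Pool.Agent.Results.MP_c65526_co.SquareBound

open Finset

open Classical in
/-- `(lam, q)` is a principal eigenpair of the graph `H`: `lam` is an eigenvalue of the adjacency
matrix of `H` with eigenvector `q`, all coordinates of `q` are positive, and `lam` is the largest
eigenvalue of the adjacency matrix. -/
def IsPrincipal {V : Type} [Fintype V] (H : SimpleGraph V) (lam : ℝ) (q : V → ℝ) : Prop :=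
  (∀ x, 0 < q x) ∧ (H.adjMatrix ℝ).mulVec q = lam • q ∧
    ∀ μ ∈ spectrum ℝ (H.adjMatrix ℝ), μ ≤ lam

section main

variable {V : Type} [Fintype V] [DecidableEq V] (G : SimpleGraph V) [DecidableRel G.Adj]
  (H : SimpleGraph V) [DecidableRel H.Adj]

theorem eig_sum {q : V → ℝ} {lam : ℝ} (hq : (H.adjMatrix ℝ).mulVec q = lam • q) (x : V) :
    ∑ y, (if H.Adj x y then q y else 0) = lam * q x := by
  have h := congrFun hq x
  simp only [Matrix.mulVec, dotProduct, SimpleGraph.adjMatrix_apply, Pi.smul_apply,
    smul_eq_mul] at h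
  rw [← h]
  refine Finset.sum_congr rfl fun y _ => ?_
  split_ifs <;> ring

/-- flow out of a set -/
theorem flow {q : V → ℝ} {lam : ℝ} (hq : (H.adjMatrix ℝ).mulVec q = lam • q) (S : Finset V) :
    ∑ x ∈ S, ∑ y ∈ Sᶜ, (if H.Adj x y then q x - q y else 0)
      = ∑ x ∈ S, ((H.degree x : ℝ) - lam) * q x := by
  have h1 : ∀ x, ∑ y, (if H.Adj x y then q x - q y else 0) = ((H.degree x : ℝ) - lam) * q x := by
    intro x
    have : ∀ y, (if H.Adj x y then q x - q y else 0)
        = (if H.Adj x y then q x else 0) - (if H.Adj x y then q y else 0) := by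
      intro y; split_ifs <;> ring
    simp_rw [this]
    rw [Finset.sum_sub_distrib, eig_sum H hq x, ← Finset.sum_filter, Finset.sum_const]
    have hd : (Finset.univ.filter fun y => H.Adj x y).card = H.degree x := by
      rw [← SimpleGraph.card_neighborFinset_eq_degree]
      congr 1
      ext y; simp
    rw [hd, nsmul_eq_mul]
    ring
  have h2 : ∑ x ∈ S, ∑ y ∈ S, (if H.Adj x y then q x - q y else 0) = 0 := by
    have h3 : ∑ x ∈ S, ∑ y ∈ S, (if H.Adj x y then q x - q y else 0)
        = - ∑ x ∈ S, ∑ y ∈ S, (if H.Adj x y then q x - q y else 0) := by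
      rw [← Finset.sum_neg_distrib]
      conv_lhs => rw [Finset.sum_comm]
      refine Finset.sum_congr rfl fun x _ => ?_
      rw [← Finset.sum_neg_distrib]
      refine Finset.sum_congr rfl fun y _ => ?_
      by_cases h : H.Adj x y
      · rw [if_pos h, if_pos h.symm]; ring
      · rw [if_neg h, if_neg (fun h' => h h'.symm)]; ring
    linarith
  rw [← Finset.sum_congr rfl fun x _ => h1 x]
  have h4 : ∀ x, ∑ y, (if H.Adj x y then q x - q y else 0)
      = ∑ y ∈ S, (if H.Adj x y then q x - q y else 0)
        + ∑ y ∈ Sᶜ, (if H.Adj x y then q x - q y else 0) := fun x =>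
    (Finset.sum_add_sum_compl S _).symm
  simp_rw [h4]
  rw [Finset.sum_add_distrib, h2, zero_add]

/-- a gap in the values of `q` is bounded by the flow across it -/
theorem gap {q : V → ℝ} {lam : ℝ} (hH : H.Connected)
    (hq : (H.adjMatrix ℝ).mulVec q = lam • q) (S : Finset V) (hS : S.Nonempty)
    (hS' : Sᶜ.Nonempty) (m M : ℝ) (hm : ∀ y ∈ Sᶜ, q y ≤ m) (hM : ∀ x ∈ S, M ≤ q x) (hmM : m ≤ M) :
    M - m ≤ ∑ x ∈ S, ((H.degree x : ℝ) - lam) * q x := by
  rw [← flow H hq S]
  have hpos : ∀ x ∈ S, ∀ y ∈ Sᶜ, 0 ≤ (if H.Adj x y then q x - q y else 0) := by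
    intro x hx y hy
    split_ifs
    · linarith [hm y hy, hM x hx]
    · exact le_rfl
  -- an edge leaving S
  obtain ⟨x, hx, y, hy, hxy⟩ : ∃ x ∈ S, ∃ y ∈ Sᶜ, H.Adj x y := by
    obtain ⟨a, ha⟩ := hS
    obtain ⟨b, hb⟩ := hS'
    obtain ⟨w⟩ := hH.preconnected a b
    have hb' : b ∉ (S : Set V) := by simpa using hb
    obtain ⟨d, hd, h1, h2⟩ := w.exists_boundary_dart (S : Set V) (by simpa using ha) hb'
    exact ⟨d.fst, by simpa using h1, d.snd, by simpa using h2, d.adj⟩
  calc M - m ≤ (if H.Adj x y then q x - q y else 0) := by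
        rw [if_pos hxy]; linarith [hm y hy, hM x hx]
    _ ≤ ∑ y ∈ Sᶜ, (if H.Adj x y then q x - q y else 0) :=
        Finset.single_le_sum (f := fun y => if H.Adj x y then q x - q y else 0)
          (fun y hy => hpos x hx y hy) hy
    _ ≤ ∑ x ∈ S, ∑ y ∈ Sᶜ, (if H.Adj x y then q x - q y else 0) :=
        Finset.single_le_sum (f := fun x => ∑ y ∈ Sᶜ, if H.Adj x y then q x - q y else 0)
          (fun x hx => Finset.sum_nonneg fun y hy => hpos x hx y hy) hx

/-- the chain argument: if gaps (at levels up to `c`) are at most `K`, then `q` grows at most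
linearly in the rank -/
theorem chain {q : V → ℝ} (u : V) (_hu : ∀ x, q u ≤ q x) (c K : ℝ)
    (hgap : ∀ (S : Finset V) (m M : ℝ), S.Nonempty → Sᶜ.Nonempty → (∀ y ∈ Sᶜ, q y ≤ m) →
      (∀ x ∈ S, M ≤ q x) → m < M → (∃ x ∈ S, q x = M) → M ≤ c →
      (∀ x, x ∈ S ↔ M ≤ q x) → M - m ≤ K) (hK : 0 ≤ K) :
    ∀ (r : ℕ) (z : V), (Finset.univ.filter fun y => q y < q z).card ≤ r → q z ≤ c →
      q z ≤ q u + r * K := by
  intro r
  induction r with
  | zero =>
    intro z hz _
    have : (Finset.univ.filter fun y => q y < q z) = ∅ := by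
      rw [← Finset.card_eq_zero]; omega
    have h1 : ¬ q u < q z := by
      intro h
      have : u ∈ (Finset.univ.filter fun y => q y < q z) := by simp [h]
      rw [‹(Finset.univ.filter fun y => q y < q z) = ∅›] at this
      simp at this
    push_cast
    linarith
  | succ r ih =>
    intro z hz hzc
    rcases Nat.lt_or_ge (Finset.univ.filter fun y => q y < q z).card (r + 1) with h | h
    · have := ih z (by omega) hzc
      push_cast
      linarith
    · have hne : (Finset.univ.filter fun y => q y < q z).Nonempty := by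
        rw [← Finset.card_pos]; omega
      obtain ⟨y0, hy0, hmax⟩ := Finset.exists_max_image _ q hne
      have hy0' : q y0 < q z := by simpa using hy0
      have h2 : (Finset.univ.filter fun y => q y < q y0).card ≤ r := by
        have hlt : (Finset.univ.filter fun y => q y < q y0).card
            < (Finset.univ.filter fun y => q y < q z).card := by
          apply Finset.card_lt_card
          rw [Finset.ssubset_iff_of_subset]
          · exact ⟨y0, hy0, by simp⟩
          · intro y hy
            simp only [Finset.mem_filter, Finset.mem_univ, true_and] at hy ⊢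
            linarith
        omega
      have h3 := ih y0 h2 (by linarith)
      have h4 := hgap (Finset.univ.filter fun x => q z ≤ q x) (q y0) (q z)
        ⟨z, by simp⟩ ⟨y0, by simp [hy0']⟩
        (fun y hy => hmax y (by simpa using hy)) (fun x hx => by simpa using hx) hy0'
        ⟨z, by simp, rfl⟩ hzc (fun x => by simp)
      push_cast
      linarith

/-- the estimate when the minimum of `q` is attained at `u` -/
theorem aux (hH : H.Connected) (d : ℝ) (u v : V) (huv : u ≠ v)
    (hdeg : ∀ x, (H.degree x : ℝ) = d - (if x = u then 1 else 0) - (if x = v then 1 else 0))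
    {q : V → ℝ} {lam : ℝ} (hpos : ∀ x, 0 < q x)
    (hq : (H.adjMatrix ℝ).mulVec q = lam • q) (hu : ∀ x, q u ≤ q x) (z : V) :
    q z ≤ (Fintype.card V : ℝ) ^ 2 * q u := by
  have hflow : ∀ S : Finset V, ∑ x ∈ S, ((H.degree x : ℝ) - lam) * q x
      = (d - lam) * ∑ x ∈ S, q x - (if u ∈ S then q u else 0) - (if v ∈ S then q v else 0) := by
    intro S
    have : ∀ x, ((H.degree x : ℝ) - lam) * q x
        = (d - lam) * q x - (if x = u then q u else 0) - (if x = v then q v else 0) := by
      intro x
      rw [hdeg x]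
      by_cases h1 : x = u
      · subst h1
        rw [if_pos rfl, if_neg huv, if_pos rfl, if_neg huv]; ring
      · by_cases h2 : x = v
        · subst h2
          rw [if_neg h1, if_pos rfl, if_neg h1, if_pos rfl]; ring
        · rw [if_neg h1, if_neg h2, if_neg h1, if_neg h2]; ring
    simp_rw [this]
    rw [Finset.sum_sub_distrib, Finset.sum_sub_distrib, ← Finset.mul_sum, Finset.sum_ite_eq',
      Finset.sum_ite_eq']
  have htot : (d - lam) * ∑ x, q x = q u + q v := by
    have h1 := flow H hq Finset.univ
    rw [hflow] at h1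
    simp only [Finset.compl_univ, Finset.sum_empty, Finset.sum_const_zero, Finset.mem_univ,
      if_true] at h1
    linarith
  have hsum : 0 < ∑ x, q x := Finset.sum_pos (fun x _ => hpos x) ⟨u, Finset.mem_univ u⟩
  have heps : 0 < d - lam := by
    have h1 : 0 < (d - lam) * ∑ x, q x := by rw [htot]; linarith [hpos u, hpos v]
    exact (pos_iff_pos_of_mul_pos h1).2 hsum
  have hle : ∀ S : Finset V, (d - lam) * ∑ x ∈ S, q x ≤ q u + q v := by
    intro S
    rw [← htot]
    apply mul_le_mul_of_nonneg_left _ heps.le
    exact Finset.sum_le_sum_of_subset_of_nonneg (Finset.subset_univ S)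
      (fun x _ _ => (hpos x).le)
  have hnotin : ∀ (S : Finset V) (m M : ℝ), Sᶜ.Nonempty → (∀ y ∈ Sᶜ, q y ≤ m) → m < M →
      (∀ x, x ∈ S ↔ M ≤ q x) → u ∉ S := by
    intro S m M hS' hm hmM hS
    obtain ⟨y, hy⟩ := hS'
    rw [hS]
    have := hm y hy
    have := hu y
    intro h
    linarith
  -- ranks
  have hrank : ∀ z, (Finset.univ.filter fun y => q y < q z).card + 1 ≤ Fintype.card V := by
    intro z
    have h1 : (Finset.univ.filter fun y => q y < q z) ⊂ Finset.univ := by
      rw [Finset.ssubset_univ_iff]
      intro h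
      have : z ∈ (Finset.univ.filter fun y => q y < q z) := by rw [h]; exact Finset.mem_univ z
      simp at this
    have := Finset.card_lt_card h1
    rw [Finset.card_univ] at this
    omega
  set n : ℝ := (Fintype.card V : ℝ) with hn
  -- first stage
  have h1 := chain u hu (q v) (q u) (fun S m M hne hne' hm hM hmM _ hMc hS => by
    have hg := gap H hH hq S hne hne' m M hm hM hmM.le
    rw [hflow, if_neg (hnotin S m M hne' hm hmM hS), if_pos ((hS v).2 hMc)] at hg
    linarith [hle S]) (hpos u).le _ v le_rfl le_rfl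
  have hr1 : ((Finset.univ.filter fun y => q y < q v).card : ℝ) + 1 ≤ n := by
    rw [hn]; exact_mod_cast hrank v
  have hv : q v ≤ n * q u := by
    calc q v ≤ (((Finset.univ.filter fun y => q y < q v).card : ℝ) + 1) * q u := by linarith
      _ ≤ n * q u := mul_le_mul_of_nonneg_right hr1 (hpos u).le
  -- second stage
  have h2 := chain u hu (q z) (q u + q v) (fun S m M hne hne' hm hM hmM _ hMc hS => by
    have hg := gap H hH hq S hne hne' m M hm hM hmM.le
    rw [hflow, if_neg (hnotin S m M hne' hm hmM hS)] at hg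
    have : 0 ≤ (if v ∈ S then q v else 0) := by
      split_ifs
      · exact (hpos v).le
      · exact le_rfl
    linarith [hle S]) (by linarith [hpos u, hpos v]) _ z le_rfl le_rfl
  have hr2 : ((Finset.univ.filter fun y => q y < q z).card : ℝ) ≤ n - 1 := by
    have : ((Finset.univ.filter fun y => q y < q z).card : ℝ) + 1 ≤ n := by
      rw [hn]; exact_mod_cast hrank z
    linarith
  have hn1 : (1 : ℝ) ≤ n := by
    have : (0 : ℝ) ≤ ((Finset.univ.filter fun y => q y < q z).card : ℝ) := Nat.cast_nonneg _
    linarith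
  calc q z ≤ q u + ((Finset.univ.filter fun y => q y < q z).card : ℝ) * (q u + q v) := h2
    _ ≤ q u + (n - 1) * (q u + q v) := by
        have := mul_le_mul_of_nonneg_right hr2 (by linarith [hpos u, hpos v] : 0 ≤ q u + q v)
        linarith
    _ ≤ q u + (n - 1) * (q u + n * q u) := by
        have := mul_le_mul_of_nonneg_left hv (by linarith : (0:ℝ) ≤ n - 1)
        nlinarith
    _ = n ^ 2 * q u := by ring

end main

theorem degree_delete {V : Type} [Fintype V] [DecidableEq V] (G : SimpleGraph V)
    [DecidableRel G.Adj] (d : ℕ) (hreg : G.IsRegularOfDegree d) (u v : V) (huv : G.Adj u v)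
    [DecidableRel (G.deleteEdges {s(u, v)}).Adj] (x : V) :
    ((G.deleteEdges {s(u, v)}).degree x : ℝ)
      = (d : ℝ) - (if x = u then 1 else 0) - (if x = v then 1 else 0) := by
  have hne : u ≠ v := huv.ne
  have h1 : ∀ (K : SimpleGraph V) [DecidableRel K.Adj],
      (K.degree x : ℝ) = ∑ y, (if K.Adj x y then (1 : ℝ) else 0) := by
    intro K _
    rw [← SimpleGraph.card_neighborFinset_eq_degree, Finset.sum_boole]
    congr 2
    ext y; simp
  have h2 : (d : ℝ) = ∑ y, (if G.Adj x y then (1 : ℝ) else 0) := by
    rw [← h1 G, hreg x]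
  have h3 : ∀ y, (if (G.deleteEdges {s(u, v)}).Adj x y then (1 : ℝ) else 0)
      = (if G.Adj x y then (1 : ℝ) else 0) - (if x = u then (if y = v then 1 else 0) else 0)
        - (if x = v then (if y = u then 1 else 0) else 0) := by
    intro y
    simp only [SimpleGraph.deleteEdges_adj, Set.mem_singleton_iff, Sym2.eq_iff]
    by_cases hx : x = u
    · subst hx
      by_cases hy : y = v
      · subst hy
        simp [huv, hne]
      · simp [hy, hne]
    · by_cases hx' : x = v
      · subst hx'
        by_cases hy : y = u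
        · subst hy
          simp [huv.symm, hne, hne.symm]
        · simp [hy, hne.symm]
      · simp [hx, hx']
  rw [h1]
  simp_rw [h3]
  rw [Finset.sum_sub_distrib, Finset.sum_sub_distrib, ← h2]
  congr 1
  · congr 1
    by_cases hx : x = u
    · simp [hx]
    · simp [hx]
  · by_cases hx : x = v
    · simp [hx]
    · simp [hx]

/-- the main estimate -/
theorem main {V : Type} [Fintype V] [DecidableEq V] (G : SimpleGraph V) [DecidableRel G.Adj]
    (d : ℕ) (hreg : G.IsRegularOfDegree d) (u v : V) (huv : G.Adj u v)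
    [DecidableRel (G.deleteEdges {s(u, v)}).Adj]
    (hH : (G.deleteEdges {s(u, v)}).Connected) (q : V → ℝ) (lam : ℝ) (hpos : ∀ x, 0 < q x)
    (hq : ((G.deleteEdges {s(u, v)}).adjMatrix ℝ).mulVec q = lam • q) (x y : V) :
    q x ≤ (Fintype.card V : ℝ) ^ 2 * q y := by
  have hdeg := degree_delete G d hreg u v huv
  have hn : (0 : ℝ) ≤ (Fintype.card V : ℝ) ^ 2 := by positivity
  -- where the minimum is attained
  obtain ⟨x0, -, hx0⟩ := Finset.exists_min_image Finset.univ q ⟨u, Finset.mem_univ u⟩
  have hx0' : ∀ x, q x0 ≤ q x := fun x => hx0 x (Finset.mem_univ x)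
  have hdeg' : ∀ x, ((G.deleteEdges {s(u, v)}).degree x : ℝ)
      = (d : ℝ) - (if x = v then 1 else 0) - (if x = u then 1 else 0) := by
    intro x; rw [hdeg x]; ring
  -- the total of the eigenvalue equation
  have htot : ((d : ℝ) - lam) * ∑ x, q x = q u + q v := by
    have h1 := flow (G.deleteEdges {s(u, v)}) hq Finset.univ
    simp only [Finset.compl_univ, Finset.sum_empty, Finset.sum_const_zero] at h1
    have h2 : ∑ x, (((G.deleteEdges {s(u, v)}).degree x : ℝ) - lam) * q x
        = ((d : ℝ) - lam) * ∑ x, q x - q u - q v := by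
      have : ∀ x, (((G.deleteEdges {s(u, v)}).degree x : ℝ) - lam) * q x
          = ((d : ℝ) - lam) * q x - (if x = u then q x else 0) - (if x = v then q x else 0) := by
        intro x
        rw [hdeg x]
        split_ifs <;> ring
      simp_rw [this]
      rw [Finset.sum_sub_distrib, Finset.sum_sub_distrib, ← Finset.mul_sum]
      simp
    rw [h2] at h1
    linarith
  have hsum : 0 < ∑ x, q x := Finset.sum_pos (fun x _ => hpos x) ⟨u, Finset.mem_univ u⟩
  have heps : 0 < (d : ℝ) - lam := by
    have h1 : 0 < ((d : ℝ) - lam) * ∑ x, q x := by rw [htot]; linarith [hpos u, hpos v]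
    exact (pos_iff_pos_of_mul_pos h1).2 hsum
  by_cases hu : x0 = u
  · subst hu
    exact (aux _ hH d x0 v huv.ne hdeg hpos hq hx0' x).trans
      (mul_le_mul_of_nonneg_left (hx0' y) hn)
  by_cases hv : x0 = v
  · subst hv
    exact (aux _ hH d x0 u huv.ne.symm hdeg' hpos hq hx0' x).trans
      (mul_le_mul_of_nonneg_left (hx0' y) hn)
  · exfalso
    have h1 := eig_sum (G.deleteEdges {s(u, v)}) hq x0
    have h2 : ((G.deleteEdges {s(u, v)}).degree x0 : ℝ) * q x0
        ≤ ∑ y, (if (G.deleteEdges {s(u, v)}).Adj x0 y then q y else 0) := by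
      have h3 : ((G.deleteEdges {s(u, v)}).degree x0 : ℝ) * q x0
          = ∑ y, (if (G.deleteEdges {s(u, v)}).Adj x0 y then q x0 else 0) := by
        rw [← Finset.sum_filter, Finset.sum_const, nsmul_eq_mul]
        congr 2
        rw [← SimpleGraph.card_neighborFinset_eq_degree]
        congr 1
        ext y; simp
      rw [h3]
      refine Finset.sum_le_sum fun y _ => ?_
      split_ifs
      · exact hx0' y
      · exact le_rfl
    rw [hdeg x0, if_neg hu, if_neg hv, h1] at h2
    have := hpos x0
    nlinarith

/-- **Theorem.** Let `G` be a connected regular graph on `n` vertices and `e = uv` an edge of `G`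
such that `G - e` is connected. Then the principal ratio of `G - e` is at most `n ^ 2`: the
principal eigenvector `q` exists, and any two of its coordinates have ratio at most `n ^ 2`. -/
theorem result :
    ∀ (V : Type) [Fintype V] (G : SimpleGraph V) (d : ℕ) (u v : V),
      G.Connected → (∀ x, (G.neighborSet x).ncard = d) → G.Adj u v →
      (G.deleteEdges {s(u, v)}).Connected →
      (∃ (lam : ℝ) (q : V → ℝ), IsPrincipal (G.deleteEdges {s(u, v)}) lam q) ∧
      ∀ (lam : ℝ) (q : V → ℝ), IsPrincipal (G.deleteEdges {s(u, v)}) lam q →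
        ∀ x y : V, q x / q y ≤ (Fintype.card V : ℝ) ^ 2 := by
  intro V _ G d u v _ hreg huv hH
  letI i1 : DecidableEq V := fun a b => Classical.propDecidable (a = b)
  letI i2 : DecidableRel (G.deleteEdges {s(u, v)}).Adj := fun a b => Classical.propDecidable _
  letI i3 : DecidableRel G.Adj := fun a b => Classical.propDecidable _
  refine ⟨Pool.Agent.R2.Perron.exists_perron _ hH, ?_⟩
  rintro lam q ⟨hpos, hq, -⟩ x y
  have hreg' : G.IsRegularOfDegree d := by
    intro x
    rw [← hreg x, ← SimpleGraph.card_neighborSet_eq_degree, Set.ncard_eq_toFinset_card',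
      Set.toFinset_card]
  rw [div_le_iff₀ (hpos y)]
  exact main G d hreg' u v huv hH q lam hpos hq x y

end Pool.Agent.Results.MP_c65526_co.SquareBound
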